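import Mathlib
import Pool.Agent.H.MP_59b15d_al.deg.Star
import Pool.Agent.H.MP_59b15d_al.h60e.Hb

set_option autoImplicit false

/-!
# The instance of (STAR)
-/

namespace Pool.MP_59b15d_al.H73Y

open Pool.MP_59b15d_al.H95E Pool.MP_59b15d_al.H93E Pool.MP_59b15d_al.H60E
open Pool.MP_59b15d_al.H24T Pool.MP_59b15d_al.H76R Pool.MP_59b15d_al.H73E
open Pool.MP_59b15d_al.H60G Pool.MP_59b15d_al.H40L
open Pool.Agent.H.MP_59b15d_al.Deg

/-- The generators which express the front arc across `q`. -/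
def starSet {Γ : Type*} (A B C : ℕ → Γ) (q : ℕ) : Set Γ :=
  {C (q - 1), C q, A (q - 1), A q, A (q + 1), B q}

section

variable {m : ℕ} {G : Type*} [Group G] {a b : Fin m → G} (h : IsSurf a b)

/-- **(STAR)** for the indexed generators. -/
theorem star_of {S : ℕ → MulAut G}
    (hS : ∀ k (hk : k + 1 < m), S k = SW h ⟨k, by omega⟩ ⟨k + 1, hk⟩ rfl) {q : ℕ} (h1 : 0 < q)
    (h2 : q + 1 < m) :
    fa (TrC h) S (q - 1) 1 ∈ Subgroup.closure {TrC h (q - 1), TrC h q, TrA h (q - 1), TrA h q,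
      TrA h (q + 1), TrB h q} := by
  obtain ⟨i, rfl⟩ : ∃ i, q = i + 1 := ⟨q - 1, by omega⟩
  have e0 : i + 1 - 1 = i := by omega
  rw [e0]
  have e1 : fa (TrC h) S i 1 =
      (SW h ⟨i + 1, by omega⟩ ⟨i + 2, h2⟩ rfl)⁻¹ * CC h ⟨i, by omega⟩ ⟨i + 1, by omega⟩ rfl *
        SW h ⟨i + 1, by omega⟩ ⟨i + 2, h2⟩ rfl := by
    have e2 : fa (TrC h) S i 1 = (S (i + 1))⁻¹ * fa (TrC h) S i 0 * S (i + 1) := rfl
    rw [e2, fa_zero, TrC_lt h (by omega : i + 1 < m), hS (i + 1) (by omega)]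
  rw [e1]
  set K := Subgroup.closure {TrC h i, TrC h (i + 1), TrA h i, TrA h (i + 1), TrA h (i + 1 + 1),
    TrB h (i + 1)} with hK
  apply STAR_mem h rfl rfl K
  · rw [← TrC_lt h (by omega : i + 1 < m)]
    exact Subgroup.subset_closure (by simp)
  · rw [← TrC_lt h (by omega : i + 1 + 1 < m)]
    exact Subgroup.subset_closure (by simp)
  · have := TrA_lt h (by omega : i < m)
    rw [← inv_inv (TA h ⟨i, by omega⟩), ← this]
    exact K.inv_mem (Subgroup.subset_closure (by simp))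
  · have := TrA_lt h (by omega : i + 1 < m)
    rw [← inv_inv (TA h ⟨i + 1, by omega⟩), ← this]
    exact K.inv_mem (Subgroup.subset_closure (by simp))
  · have := TrA_lt h (by omega : i + 1 + 1 < m)
    rw [← inv_inv (TA h ⟨i + 2, h2⟩), ← this]
    exact K.inv_mem (Subgroup.subset_closure (by simp))
  · rw [← TrB_lt h (by omega : i + 1 < m)]
    exact Subgroup.subset_closure (by simp)

end

section lift

variable {Γ Γ' : Type*} [Group Γ] [Group Γ']

/-- (STAR) can be checked after an injective homomorphism. -/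
theorem star_lift (f : Γ' →* Γ) (hf : Function.Injective f) {A B C S : ℕ → Γ'} {q : ℕ}
    (hs : fa (fun i => f (C i)) (fun i => f (S i)) (q - 1) 1 ∈ Subgroup.closure
      {f (C (q - 1)), f (C q), f (A (q - 1)), f (A q), f (A (q + 1)), f (B q)}) :
    fa C S (q - 1) 1 ∈ Subgroup.closure
      {C (q - 1), C q, A (q - 1), A q, A (q + 1), B q} := by
  have e1 : fa (fun i => f (C i)) (fun i => f (S i)) (q - 1) 1 = f (fa C S (q - 1) 1) := by
    have e2 : fa (fun i => f (C i)) (fun i => f (S i)) (q - 1) 1 =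
      (f (S (q - 1 + 1)))⁻¹ * f (C (q - 1)) * f (S (q - 1 + 1)) := rfl
    have e3 : fa C S (q - 1) 1 = (S (q - 1 + 1))⁻¹ * C (q - 1) * S (q - 1 + 1) := rfl
    rw [e2, e3, map_mul, map_mul, map_inv]
  have e4 : ({f (C (q - 1)), f (C q), f (A (q - 1)), f (A q), f (A (q + 1)), f (B q)} : Set Γ) =
      f '' {C (q - 1), C q, A (q - 1), A q, A (q + 1), B q} := by
    simp only [Set.image_insert_eq, Set.image_singleton]
  rw [e1, e4, ← MonoidHom.map_closure, Subgroup.mem_map] at hs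
  obtain ⟨x, hx, hxe⟩ := hs
  rwa [← hf hxe]

/-- (STAR) is kept by every homomorphism. -/
theorem star_map (f : Γ' →* Γ) {A B C S : ℕ → Γ'} {q : ℕ}
    (hs : fa C S (q - 1) 1 ∈ Subgroup.closure
      {C (q - 1), C q, A (q - 1), A q, A (q + 1), B q}) :
    fa (fun i => f (C i)) (fun i => f (S i)) (q - 1) 1 ∈ Subgroup.closure
      {f (C (q - 1)), f (C q), f (A (q - 1)), f (A q), f (A (q + 1)), f (B q)} := by
  have e1 : fa (fun i => f (C i)) (fun i => f (S i)) (q - 1) 1 = f (fa C S (q - 1) 1) := by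
    have e2 : fa (fun i => f (C i)) (fun i => f (S i)) (q - 1) 1 =
      (f (S (q - 1 + 1)))⁻¹ * f (C (q - 1)) * f (S (q - 1 + 1)) := rfl
    have e3 : fa C S (q - 1) 1 = (S (q - 1 + 1))⁻¹ * C (q - 1) * S (q - 1 + 1) := rfl
    rw [e2, e3, map_mul, map_mul, map_inv]
  have e4 : ({f (C (q - 1)), f (C q), f (A (q - 1)), f (A q), f (A (q + 1)), f (B q)} : Set Γ) =
      f '' {C (q - 1), C q, A (q - 1), A q, A (q + 1), B q} := by
    simp only [Set.image_insert_eq, Set.image_singleton]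
  rw [e1, e4, ← MonoidHom.map_closure]
  exact Subgroup.mem_map_of_mem f hs

end lift

end Pool.MP_59b15d_al.H73Y
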