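import Mathlib
import Pool.Agent.H.MP_59b15d_al.h46u.Inst
import Pool.Agent.H.MP_59b15d_al.h73y.StarInst

set_option autoImplicit false

/-!
# (STAR) in the mapping class group
-/

namespace Pool.MP_59b15d_al.H73Y

universe w

open Pool.MP_59b15d_al.H95E Pool.MP_59b15d_al.H46U
open Pool.MP_59b15d_al.H24T Pool.MP_59b15d_al.H76R Pool.MP_59b15d_al.H73E
open Pool.MP_59b15d_al.H60G
open Pool.Agent.H.MP_59b15d_al.Lin (uA uB uC)

variable {m : ℕ} {G : Type w} [Group G] {a b : Fin m → G} (h : IsSurf a b)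

/-- **(STAR)** in the mapping class group. -/
theorem star_mcg {q : ℕ} (h1 : 0 < q) (h2 : q + 1 < m) :
    fa (uC h) (uS h) (q - 1) 1 ∈ Subgroup.closure {uC h (q - 1), uC h q, uA h (q - 1), uA h q,
      uA h (q + 1), uB h q} :=
  star_lift (MCG a b).subtype inj (star_of h (fun _ hk => TrS_lt h hk) h1 h2)

end Pool.MP_59b15d_al.H73Y
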